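import Pool.Agent.N869.QA.L.Stm

/-!
Project QA (helper869): the lower bound for the sums of `r ^ #S` (helper124).
-/

set_option autoImplicit false

open scoped Classical

namespace Pool.Agent.N124.QA

open Finset Filter
open Pool.Agent.N869.QA.L

variable {R : Type} (G : GP R)

/-- the norm of a set -/
noncomputable def NN (S : Finset R) : ℕ := ∏ π ∈ S, G.nrm π

lemma NN_pos {S : Finset R} (h : ∀ π ∈ S, G.Pq π) : 0 < NN G S :=
  prod_pos fun π hπ => by have := G.two_le π (h π hπ); omega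

lemma mem_SAg {X : ℕ} {S : Finset R} : S ∈ SAg G X ↔ (∀ π ∈ S, G.Pq π) ∧ NN G S ≤ X := by
  unfold SAg NN
  rw [mem_filter, mem_powerset]
  constructor
  · rintro ⟨h1, h2⟩
    exact ⟨fun π hπ => ((G.mem X π).1 (h1 hπ)).2, h2⟩
  · rintro ⟨h1, h2⟩
    refine ⟨fun π hπ => (G.mem X π).2 ⟨?_, h1 π hπ⟩, h2⟩
    refine le_trans ?_ h2
    exact Nat.le_of_dvd (NN_pos G h1) (dvd_prod_of_mem _ hπ)

lemma SAg_mono {X Y : ℕ} (h : X ≤ Y) : SAg G X ⊆ SAg G Y := by
  intro S hS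
  rw [mem_SAg] at hS ⊢
  exact ⟨hS.1, hS.2.trans h⟩

lemma WS_mono (r : ℕ) {X Y : ℕ} (h : X ≤ Y) : WS G r X ≤ WS G r Y :=
  sum_le_sum_of_subset_of_nonneg (SAg_mono G h) fun S _ _ => by positivity

lemma WS_nonneg (r X : ℕ) : 0 ≤ WS G r X := sum_nonneg fun S _ => by positivity

lemma SAg_zero : SAg G 0 = ∅ := by
  rw [eq_empty_iff_forall_notMem]
  intro S hS
  rw [mem_SAg] at hS
  have := NN_pos G hS.1
  omega

lemma WS_zero (r : ℕ) : WS G r 0 = 0 := by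
  unfold WS
  rw [SAg_zero, sum_empty]

lemma WS_pos (r : ℕ) {X : ℕ} (hX : 1 ≤ X) : 1 ≤ WS G r X := by
  have h : (∅ : Finset R) ∈ SAg G X := by
    rw [mem_SAg]
    exact ⟨fun π hπ => absurd hπ (notMem_empty π), by unfold NN; rw [prod_empty]; exact hX⟩
  have h2 := single_le_sum (f := fun S : Finset R => (r : ℝ) ^ S.card) (fun S _ => by positivity) h
  beta_reduce at h2
  rwa [card_empty, pow_zero] at h2

/-- the sum over the powers of `2` above `n` -/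
lemma geo_le {n : ℕ} (hn : 1 ≤ n) (J : ℕ) :
    ∑ j ∈ (range (J + 1)).filter (fun j => n ≤ 2 ^ j), (1 / 2 : ℝ) ^ j ≤ 2 / n := by
  have h1 : (range (J + 1)).filter (fun j => n ≤ 2 ^ j) ⊆ Ico (Nat.clog 2 n) (J + 1) := by
    intro j hj
    rw [mem_filter, mem_range] at hj
    rw [mem_Ico]
    exact ⟨(Nat.clog_le_iff_le_pow (by norm_num)).2 hj.2, hj.1⟩
  refine (sum_le_sum_of_subset_of_nonneg h1 fun j _ _ => by positivity).trans ?_
  refine (geom_sum_Ico_le_of_lt_one (by norm_num) (by norm_num)).trans ?_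
  have h2 : (n : ℝ) ≤ 2 ^ Nat.clog 2 n := by
    exact_mod_cast Nat.le_pow_clog (by norm_num) n
  have hn0 : (0 : ℝ) < n := by exact_mod_cast hn
  have h3 : (1 / 2 : ℝ) ^ Nat.clog 2 n ≤ 1 / n := by
    rw [div_pow, one_pow]
    exact one_div_le_one_div_of_le hn0 h2
  calc (1 / 2 : ℝ) ^ Nat.clog 2 n / (1 - 1 / 2) = 2 * (1 / 2 : ℝ) ^ Nat.clog 2 n := by ring
    _ ≤ 2 * (1 / n) := by linarith
    _ = 2 / n := by ring

/-- the sum of `r ^ #M / N(M)` from below -/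
lemma V_ge (r J : ℕ) : ∑ j ∈ range (J + 1), WS G r (2 ^ j) * (1 / 2 : ℝ) ^ j ≤
    2 * ∑ M ∈ SAg G (2 ^ J), (r : ℝ) ^ M.card / NN G M := by
  have h1 : ∀ j ∈ range (J + 1), WS G r (2 ^ j) * (1 / 2 : ℝ) ^ j =
      ∑ M ∈ SAg G (2 ^ J), if NN G M ≤ 2 ^ j then (r : ℝ) ^ M.card * (1 / 2 : ℝ) ^ j else 0 := by
    intro j hj
    rw [mem_range] at hj
    unfold WS
    rw [sum_mul, ← sum_filter]
    apply sum_congr _ fun _ _ => rfl
    ext M
    rw [mem_filter, mem_SAg, mem_SAg]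
    constructor
    · rintro ⟨h2, h3⟩
      exact ⟨⟨h2, h3.trans (Nat.pow_le_pow_right (by norm_num) (by omega))⟩, h3⟩
    · rintro ⟨⟨h2, _⟩, h3⟩
      exact ⟨h2, h3⟩
  rw [sum_congr rfl h1, sum_comm, mul_sum]
  refine sum_le_sum fun M hM => ?_
  rw [mem_SAg] at hM
  have h2 : ∑ j ∈ range (J + 1), (if NN G M ≤ 2 ^ j then (r : ℝ) ^ M.card * (1 / 2 : ℝ) ^ j else 0) =
      (r : ℝ) ^ M.card * ∑ j ∈ (range (J + 1)).filter (fun j => NN G M ≤ 2 ^ j), (1 / 2 : ℝ) ^ j := by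
    rw [← sum_filter, mul_sum]
  rw [h2]
  calc (r : ℝ) ^ M.card * ∑ j ∈ (range (J + 1)).filter (fun j => NN G M ≤ 2 ^ j), (1 / 2 : ℝ) ^ j ≤
      (r : ℝ) ^ M.card * (2 / NN G M) :=
        mul_le_mul_of_nonneg_left (geo_le (NN_pos G hM.1) J) (by positivity)
    _ = _ := by ring

lemma L1_pow_ge (j : ℕ) : ((j : ℝ) + 1) / 2 ≤ L1 (2 ^ j) := by
  unfold L1
  push_cast
  rw [Real.log_pow]
  have := Real.log_two_gt_d9
  have h0 : (0 : ℝ) ≤ j := Nat.cast_nonneg _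
  nlinarith

lemma L1_mono {X Y : ℕ} (hX : 1 ≤ X) (h : X ≤ Y) : L1 X ≤ L1 Y := by
  unfold L1
  have := Real.log_le_log (by exact_mod_cast hX : (0 : ℝ) < X) (by exact_mod_cast h : (X : ℝ) ≤ Y)
  linarith

lemma L1_one_le {X : ℕ} (hX : 1 ≤ X) : 1 ≤ L1 X := by
  unfold L1
  have := Real.log_nonneg (by exact_mod_cast hX : (1 : ℝ) ≤ X)
  linarith

/-- the sum of `r ^ #M / N(M)` is at least a power of the logarithm -/
lemma V_low (s : ℕ) (c' : ℝ) (X₁ : ℕ) (hc' : 0 < c')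
    (h : ∀ X : ℕ, X₁ ≤ X → c' * (X * L1 X ^ s) ≤ WS G (s + 1) X) (J : ℕ) (hJ : 2 * X₁ ≤ J) :
    c' / 4 ^ (s + 1) * (J : ℝ) ^ (s + 1) ≤
      ∑ M ∈ SAg G (2 ^ J), ((s + 1 : ℕ) : ℝ) ^ M.card / NN G M := by
  have h1 := V_ge G (s + 1) J
  have h2 : ∀ j ∈ (range (J + 1)).filter (fun j => J ≤ 2 * j), c' * ((J : ℝ) / 4) ^ s ≤
      WS G (s + 1) (2 ^ j) * (1 / 2 : ℝ) ^ j := by
    intro j hj
    rw [mem_filter, mem_range] at hj
    have e1 : X₁ ≤ 2 ^ j := by
      have : j < 2 ^ j := Nat.lt_two_pow_self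
      omega
    have e2 := h (2 ^ j) e1
    have e3 : (J : ℝ) / 4 ≤ L1 (2 ^ j) := by
      refine le_trans ?_ (L1_pow_ge j)
      have : (J : ℝ) ≤ 2 * j := by exact_mod_cast hj.2
      linarith
    have e4 : ((J : ℝ) / 4) ^ s ≤ L1 (2 ^ j) ^ s := pow_le_pow_left₀ (by positivity) e3 s
    have e5 : ((2 ^ j : ℕ) : ℝ) * (1 / 2 : ℝ) ^ j = 1 := by
      push_cast
      rw [← mul_pow]
      norm_num
    calc c' * ((J : ℝ) / 4) ^ s ≤ c' * L1 (2 ^ j) ^ s := mul_le_mul_of_nonneg_left e4 hc'.le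
      _ = c' * (((2 ^ j : ℕ) : ℝ) * L1 (2 ^ j) ^ s) * (1 / 2 : ℝ) ^ j := by
          linear_combination (-(c' * L1 (2 ^ j) ^ s)) * e5
      _ ≤ WS G (s + 1) (2 ^ j) * (1 / 2 : ℝ) ^ j := mul_le_mul_of_nonneg_right e2 (by positivity)
  have h3 : (((range (J + 1)).filter (fun j => J ≤ 2 * j)).card : ℝ) * (c' * ((J : ℝ) / 4) ^ s) ≤
      ∑ j ∈ range (J + 1), WS G (s + 1) (2 ^ j) * (1 / 2 : ℝ) ^ j := by
    rw [← nsmul_eq_mul, ← sum_const]
    refine (sum_le_sum h2).trans ?_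
    exact sum_le_sum_of_subset_of_nonneg (filter_subset _ _)
      fun j _ _ => mul_nonneg (WS_nonneg G _ _) (by positivity)
  have h4 : (J : ℝ) / 2 ≤ (((range (J + 1)).filter (fun j => J ≤ 2 * j)).card : ℝ) := by
    have e1 : Ico (J - J / 2) (J + 1) ⊆ (range (J + 1)).filter (fun j => J ≤ 2 * j) := by
      intro j hj
      rw [mem_Ico] at hj
      rw [mem_filter, mem_range]
      omega
    have e2 := card_le_card e1
    rw [Nat.card_Ico] at e2
    have e3 : J ≤ 2 * (J + 1 - (J - J / 2)) := by omega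
    have e4 : (J : ℝ) ≤ 2 * (((range (J + 1)).filter (fun j => J ≤ 2 * j)).card : ℝ) := by
      exact_mod_cast e3.trans (by omega)
    linarith
  have h5 : (J : ℝ) / 2 * (c' * ((J : ℝ) / 4) ^ s) ≤
      2 * ∑ M ∈ SAg G (2 ^ J), ((s + 1 : ℕ) : ℝ) ^ M.card / NN G M := by
    refine le_trans ?_ (h3.trans h1)
    exact mul_le_mul_of_nonneg_right h4 (by positivity)
  have h6 : c' / 4 ^ (s + 1) * (J : ℝ) ^ (s + 1) = 1 / 2 * ((J : ℝ) / 2 * (c' * ((J : ℝ) / 4) ^ s)) := by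
    rw [div_pow, pow_succ, pow_succ]
    field_simp
    ring
  rw [h6]
  linarith

/-- the number of all the pairs, with weights -/
noncomputable def PW (r X : ℕ) : ℝ :=
  ∑ M ∈ SAg G X, (r : ℝ) ^ M.card * ((SAg G (X / NN G M)).card : ℝ)

/-- the lower bound for all the pairs -/
lemma PW_low {c : ℝ} {X₀ : ℕ} (hc : 0 < c) (hLo : Lo G c X₀) (s : ℕ) (c' : ℝ) (X₁ : ℕ) (hc' : 0 < c')
    (h : ∀ X : ℕ, X₁ ≤ X → c' * (X * L1 X ^ s) ≤ WS G (s + 1) X) :
    ∃ X₂ : ℕ, 1 ≤ X₂ ∧ ∀ X : ℕ, X₂ ≤ X →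
      c / 2 * (c' / 16 ^ (s + 1)) * (X * L1 X ^ (s + 1)) ≤ PW G (s + 1) X := by
  refine ⟨4 ^ (2 * X₁ + X₀ + 1), Nat.one_le_pow _ _ (by norm_num), fun X hX => ?_⟩
  have hX0 : X ≠ 0 := by
    have : 0 < 4 ^ (2 * X₁ + X₀ + 1) := by positivity
    omega
  set J := Nat.log 4 X with hJ
  have hJ1 : 2 * X₁ + X₀ + 1 ≤ J := (Nat.le_log_iff_pow_le (by norm_num) hX0).2 hX
  have hJX : 4 ^ J ≤ X := Nat.pow_log_le_self 4 hX0
  have hXJ : X < 4 ^ (J + 1) := Nat.lt_pow_succ_log_self (by norm_num) X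
  have h44 : 4 ^ J = 2 ^ J * 2 ^ J := by
    rw [← mul_pow]
    norm_num
  have hVl := V_low G s c' X₁ hc' h J (by omega)
  have h1 : ∀ M ∈ SAg G (2 ^ J), c / 2 * X * (((s + 1 : ℕ) : ℝ) ^ M.card / NN G M) ≤
      ((s + 1 : ℕ) : ℝ) ^ M.card * ((SAg G (X / NN G M)).card : ℝ) := by
    intro M hM
    rw [mem_SAg] at hM
    have hN := NN_pos G hM.1
    have hN0 : (0 : ℝ) < NN G M := by exact_mod_cast hN
    have e1 : 2 ^ J ≤ X / NN G M := by
      rw [Nat.le_div_iff_mul_le hN]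
      calc 2 ^ J * NN G M ≤ 2 ^ J * 2 ^ J := Nat.mul_le_mul_left _ hM.2
        _ ≤ X := by rw [← h44]; exact hJX
    have e2 : X₀ ≤ X / NN G M := by
      have : J < 2 ^ J := Nat.lt_two_pow_self
      omega
    have e3 := hLo _ e2
    have e4 : (X : ℝ) / (2 * NN G M) ≤ ((X / NN G M : ℕ) : ℝ) := by
      have f1 : 1 ≤ X / NN G M := le_trans (Nat.one_le_two_pow) e1
      have f2 : X < NN G M * (X / NN G M + 1) := Nat.lt_mul_div_succ X hN
      have f3 : X ≤ 2 * NN G M * (X / NN G M) := by nlinarith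
      rw [div_le_iff₀ (by positivity)]
      have f4 : (X : ℝ) ≤ ((2 * NN G M * (X / NN G M) : ℕ) : ℝ) := by exact_mod_cast f3
      push_cast at f4
      linarith
    calc c / 2 * X * (((s + 1 : ℕ) : ℝ) ^ M.card / NN G M) =
        ((s + 1 : ℕ) : ℝ) ^ M.card * (c * ((X : ℝ) / (2 * NN G M))) := by
          field_simp
      _ ≤ ((s + 1 : ℕ) : ℝ) ^ M.card * (c * ((X / NN G M : ℕ) : ℝ)) := by gcongr
      _ ≤ _ := by gcongr
  have h2 : c / 2 * X * ∑ M ∈ SAg G (2 ^ J), (((s + 1 : ℕ) : ℝ) ^ M.card / NN G M) ≤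
      PW G (s + 1) X := by
    rw [mul_sum]
    refine (sum_le_sum h1).trans ?_
    unfold PW
    refine sum_le_sum_of_subset_of_nonneg (SAg_mono G ?_) fun M _ _ => by positivity
    have : 2 ^ J * 1 ≤ 2 ^ J * 2 ^ J := Nat.mul_le_mul_left _ Nat.one_le_two_pow
    omega
  have hJ0 : (1 : ℝ) ≤ J := by exact_mod_cast (by omega : 1 ≤ J)
  have h3 : L1 X ≤ 4 * J := by
    unfold L1
    have e1 : Real.log X ≤ Real.log ((4 : ℝ) ^ (J + 1)) := by
      apply Real.log_le_log (by exact_mod_cast Nat.pos_of_ne_zero hX0)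
      exact_mod_cast hXJ.le
    rw [Real.log_pow] at e1
    have e2 : Real.log 4 ≤ 1.39 := by
      rw [show (4 : ℝ) = 2 ^ 2 by norm_num, Real.log_pow]
      have := Real.log_two_lt_d9
      push_cast
      linarith
    push_cast at e1
    nlinarith
  have hL0 : 0 ≤ L1 X := by
    have := L1_one_le (Nat.one_le_iff_ne_zero.2 hX0)
    linarith
  have h4 : L1 X ^ (s + 1) ≤ 4 ^ (s + 1) * (J : ℝ) ^ (s + 1) := by
    rw [← mul_pow]
    exact pow_le_pow_left₀ hL0 h3 _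
  have hX0' : (0 : ℝ) < X := by exact_mod_cast Nat.pos_of_ne_zero hX0
  calc c / 2 * (c' / 16 ^ (s + 1)) * (X * L1 X ^ (s + 1)) ≤
      c / 2 * (c' / 16 ^ (s + 1)) * (X * (4 ^ (s + 1) * (J : ℝ) ^ (s + 1))) := by gcongr
    _ = c / 2 * X * (c' / 4 ^ (s + 1) * (J : ℝ) ^ (s + 1)) := by
        rw [show (16 : ℝ) = 4 * 4 by norm_num, mul_pow]
        field_simp
    _ ≤ c / 2 * X * ∑ M ∈ SAg G (2 ^ J), (((s + 1 : ℕ) : ℝ) ^ M.card / NN G M) := by gcongr
    _ ≤ _ := h2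

/-- all pairs and disjoint pairs -/
lemma PW_le (r X : ℕ) : PW G r X ≤
    ∑ D ∈ SAg G X, (r : ℝ) ^ D.card * WS G (r + 1) (X / NN G D ^ 2) := by
  have hL : PW G r X = ∑ p ∈ (SAg G X).sigma (fun M => SAg G (X / NN G M)), (r : ℝ) ^ p.1.card := by
    unfold PW
    rw [sum_sigma]
    refine sum_congr rfl fun M _ => ?_
    show _ = ∑ _s ∈ SAg G (X / NN G M), (r : ℝ) ^ M.card
    rw [sum_const, nsmul_eq_mul, mul_comm]
  have hW : ∀ Y : ℕ, WS G (r + 1) Y = ∑ p ∈ (SAg G Y).sigma (fun T => T.powerset),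
      (r : ℝ) ^ p.2.card := by
    intro Y
    unfold WS
    rw [sum_sigma]
    refine sum_congr rfl fun T _ => ?_
    have := Finset.sum_pow_mul_eq_add_pow (r : ℝ) 1 T
    simp only [one_pow, mul_one] at this
    rw [this]
    push_cast
    rfl
  have hR : ∑ D ∈ SAg G X, (r : ℝ) ^ D.card * WS G (r + 1) (X / NN G D ^ 2) =
      ∑ p ∈ (SAg G X).sigma (fun D => (SAg G (X / NN G D ^ 2)).sigma (fun T => T.powerset)),
        (r : ℝ) ^ p.1.card * (r : ℝ) ^ p.2.2.card := by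
    rw [sum_sigma]
    refine sum_congr rfl fun D _ => ?_
    rw [hW, mul_sum]
  rw [hL, hR]
  let i : (Σ _ : Finset R, Finset R) → (Σ _ : Finset R, Σ _ : Finset R, Finset R) :=
    fun p => ⟨p.1 ∩ p.2, (p.1 \ p.2) ∪ (p.2 \ p.1), p.1 \ p.2⟩
  have hprod : ∀ A B : Finset R, Disjoint A B → NN G (A ∪ B) = NN G A * NN G B := fun A B h =>
    prod_union h
  have hsplit : ∀ A B : Finset R, NN G A = NN G (A ∩ B) * NN G (A \ B) := by
    intro A B
    rw [← hprod _ _ (disjoint_sdiff_inter A B).symm, union_comm, sdiff_union_inter]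
  have hd : ∀ A B : Finset R, Disjoint (A \ B) (B \ A) := by
    intro A B
    rw [disjoint_left]
    intro x hx hy
    rw [Finset.mem_sdiff] at hx hy
    exact hx.2 hy.1
  have hinj : ∀ p ∈ (SAg G X).sigma (fun M => SAg G (X / NN G M)),
      ∀ q ∈ (SAg G X).sigma (fun M => SAg G (X / NN G M)), i p = i q → p = q := by
    rintro ⟨M, S⟩ _ ⟨M', S'⟩ _ h
    have h1 : M ∩ S = M' ∩ S' := congrArg (fun t => t.1) h
    have h2 : (M \ S) ∪ (S \ M) = (M' \ S') ∪ (S' \ M') := congrArg (fun t => t.2.1) h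
    have h3 : M \ S = M' \ S' := congrArg (fun t => t.2.2) h
    have h4 : M = M' := by rw [← sdiff_union_inter M S, h3, h1, sdiff_union_inter]
    have h5 : S \ M = S' \ M' := by
      ext x
      have e2 := Finset.ext_iff.1 h2 x
      have e3 := Finset.ext_iff.1 h3 x
      simp only [mem_union, Finset.mem_sdiff] at e2 e3 ⊢
      tauto
    have h6 : S = S' := by
      rw [← sdiff_union_inter S M, h5, inter_comm S M, h1, inter_comm M' S', sdiff_union_inter]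
    subst h4
    subst h6
    rfl
  have hmem : ∀ p ∈ (SAg G X).sigma (fun M => SAg G (X / NN G M)), i p ∈
      (SAg G X).sigma (fun D => (SAg G (X / NN G D ^ 2)).sigma (fun T => T.powerset)) := by
    rintro ⟨M, S⟩ h
    rw [mem_sigma] at h
    obtain ⟨h1, h2⟩ := h
    simp only at h1 h2
    rw [mem_SAg] at h1 h2
    have hMpos := NN_pos G h1.1
    have hI : ∀ π ∈ M ∩ S, G.Pq π := fun π hπ => h1.1 π (mem_inter.1 hπ).1
    have hIpos := NN_pos G hI
    have hMS : NN G M * NN G S ≤ X := by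
      have := (Nat.le_div_iff_mul_le hMpos).1 h2.2
      rwa [mul_comm] at this
    have e1 : NN G M * NN G S = NN G (M ∩ S) ^ 2 * NN G ((M \ S) ∪ (S \ M)) := by
      rw [hprod _ _ (hd M S), hsplit M S, hsplit S M, inter_comm S M]
      ring
    refine mem_sigma.2 ⟨?_, mem_sigma.2 ⟨?_, ?_⟩⟩
    · show M ∩ S ∈ SAg G X
      rw [mem_SAg]
      refine ⟨hI, le_trans ?_ h1.2⟩
      exact Nat.le_of_dvd hMpos (prod_dvd_prod_of_subset _ _ _ inter_subset_left)
    · show (M \ S) ∪ (S \ M) ∈ SAg G (X / NN G (M ∩ S) ^ 2)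
      rw [mem_SAg]
      refine ⟨fun π hπ => ?_, ?_⟩
      · rw [mem_union, Finset.mem_sdiff, Finset.mem_sdiff] at hπ
        rcases hπ with h | h
        · exact h1.1 π h.1
        · exact h2.1 π h.1
      · rw [Nat.le_div_iff_mul_le (by positivity), mul_comm, ← e1]
        exact hMS
    · show M \ S ∈ ((M \ S) ∪ (S \ M)).powerset
      rw [mem_powerset]
      exact subset_union_left
  have hval : ∀ p : (Σ _ : Finset R, Finset R), (r : ℝ) ^ p.1.card =
      (r : ℝ) ^ (i p).1.card * (r : ℝ) ^ (i p).2.2.card := by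
    rintro ⟨M, S⟩
    show (r : ℝ) ^ M.card = (r : ℝ) ^ (M ∩ S).card * (r : ℝ) ^ (M \ S).card
    rw [← pow_add, card_inter_add_card_sdiff]
  rw [sum_congr rfl fun p _ => hval p]
  have := sum_image (s := (SAg G X).sigma (fun M => SAg G (X / NN G M))) (g := i)
    (f := fun p : (Σ _ : Finset R, Σ _ : Finset R, Finset R) =>
      (r : ℝ) ^ p.1.card * (r : ℝ) ^ p.2.2.card) (fun a ha b hb h => hinj a ha b hb h)
  rw [← this]
  refine sum_le_sum_of_subset_of_nonneg ?_ fun p _ _ => by positivity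
  intro p hp
  obtain ⟨q, hq, rfl⟩ := mem_image.1 hp
  exact hmem q hq

/-- the tail of the sum of `r ^ #D / N(D) ^ 2` -/
lemma tail (r : ℕ) (C : ℝ) (hC : 1 ≤ C) (s : ℕ)
    (hW : ∀ X : ℕ, 1 ≤ X → WS G r X ≤ C * (X * L1 X ^ s)) (δ : ℝ) (hδ : 0 < δ) :
    ∃ j₀ : ℕ, ∀ X : ℕ, ∑ D ∈ (SAg G X).filter (fun D => 2 ^ j₀ < NN G D),
      (r : ℝ) ^ D.card / (NN G D : ℝ) ^ 2 ≤ δ := by
  set f : ℕ → ℝ := fun j => ((j : ℝ) + 1) ^ s * (1 / 2 : ℝ) ^ j with hf
  have hfs : Summable f := by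
    have h1 : Summable (fun j : ℕ => (j : ℝ) ^ s * (1 / 2 : ℝ) ^ j) :=
      summable_pow_mul_geometric_of_norm_lt_one s (by norm_num)
    have h2 := ((summable_nat_add_iff 1).2 h1).mul_left 2
    refine h2.congr fun j => ?_
    rw [hf]
    push_cast
    rw [pow_succ]
    ring
  have hf0 : ∀ j, 0 ≤ f j := fun j => by rw [hf]; positivity
  have ht := tendsto_sum_nat_add f
  have hev := ht.eventually (gt_mem_nhds (show (0 : ℝ) < δ / (4 * C) by positivity))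
  obtain ⟨j₀, hj₀⟩ := hev.exists
  refine ⟨j₀, fun X => ?_⟩
  -- every set lies in one block
  have h1 : ∀ D ∈ (SAg G X).filter (fun D => 2 ^ j₀ < NN G D),
      (r : ℝ) ^ D.card / (NN G D : ℝ) ^ 2 ≤ ∑ k ∈ range (X + 1),
        if NN G D ≤ 2 ^ (k + j₀) then 4 * (r : ℝ) ^ D.card * (1 / 4 : ℝ) ^ (k + j₀) else 0 := by
    intro D hD
    rw [mem_filter, mem_SAg] at hD
    obtain ⟨⟨hD1, hD2⟩, hD3⟩ := hD
    set n := NN G D with hn
    have hn1 : 2 ≤ n := by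
      have : 1 ≤ 2 ^ j₀ := Nat.one_le_two_pow
      omega
    set m := Nat.clog 2 n with hm
    have hm1 : n ≤ 2 ^ m := Nat.le_pow_clog (by norm_num) n
    have hm2 : 2 ^ (m - 1) < n := Nat.pow_pred_clog_lt_self (by norm_num) (by omega)
    have hm3 : j₀ < m := by
      by_contra hcon
      have : 2 ^ m ≤ 2 ^ j₀ := Nat.pow_le_pow_right (by norm_num) (by omega)
      omega
    have hm4 : m ≤ X := by
      have e1 : m - 1 < 2 ^ (m - 1) := Nat.lt_two_pow_self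
      omega
    have hk : m - j₀ ∈ range (X + 1) := by
      rw [mem_range]
      omega
    have h2 := single_le_sum (f := fun k => if n ≤ 2 ^ (k + j₀) then
      4 * (r : ℝ) ^ D.card * (1 / 4 : ℝ) ^ (k + j₀) else 0)
      (fun k _ => by split_ifs <;> positivity) hk
    refine le_trans ?_ h2
    rw [show m - j₀ + j₀ = m by omega, if_pos hm1]
    have hn0 : (0 : ℝ) < n := by exact_mod_cast (by omega : 0 < n)
    have e3 : (2 : ℝ) ^ m ≤ 2 * n := by
      have e4 : 2 ^ m ≤ 2 * n := by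
        have e5 : 2 ^ m = 2 * 2 ^ (m - 1) := by
          rw [← pow_succ']
          congr 1
          omega
        omega
      exact_mod_cast e4
    have e4 : (4 : ℝ) ^ m ≤ 4 * (n : ℝ) ^ 2 := by
      rw [show (4 : ℝ) ^ m = ((2 : ℝ) ^ m) ^ 2 by rw [← pow_mul, mul_comm, pow_mul]; norm_num]
      calc ((2 : ℝ) ^ m) ^ 2 ≤ (2 * n) ^ 2 := by gcongr
        _ = 4 * (n : ℝ) ^ 2 := by ring
    rw [div_le_iff₀ (by positivity), div_pow, one_pow]
    have e5 : 4 * (r : ℝ) ^ D.card * (1 / 4 ^ m) * (n : ℝ) ^ 2 =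
        (r : ℝ) ^ D.card * (4 * (n : ℝ) ^ 2 / 4 ^ m) := by ring
    rw [e5]
    have e6 : 1 ≤ 4 * (n : ℝ) ^ 2 / 4 ^ m := by
      rw [one_le_div (by positivity)]
      exact e4
    have e7 : 0 ≤ (r : ℝ) ^ D.card := by positivity
    nlinarith
  refine (sum_le_sum h1).trans ?_
  rw [sum_comm]
  have h2 : ∀ k ∈ range (X + 1), ∑ D ∈ (SAg G X).filter (fun D => 2 ^ j₀ < NN G D),
      (if NN G D ≤ 2 ^ (k + j₀) then 4 * (r : ℝ) ^ D.card * (1 / 4 : ℝ) ^ (k + j₀) else 0) ≤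
      4 * C * f (k + j₀) := by
    intro k _
    rw [← sum_filter]
    have e1 : ∑ D ∈ ((SAg G X).filter (fun D => 2 ^ j₀ < NN G D)).filter
        (fun D => NN G D ≤ 2 ^ (k + j₀)), 4 * (r : ℝ) ^ D.card * (1 / 4 : ℝ) ^ (k + j₀) ≤
        4 * (1 / 4 : ℝ) ^ (k + j₀) * WS G r (2 ^ (k + j₀)) := by
      unfold WS
      rw [mul_sum]
      refine le_trans (le_of_eq (sum_congr rfl fun D _ => ?_)) (sum_le_sum_of_subset_of_nonneg
        (s := ((SAg G X).filter (fun D => 2 ^ j₀ < NN G D)).filter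
        (fun D => NN G D ≤ 2 ^ (k + j₀))) ?_ fun D _ _ => by positivity)
      · ring
      · intro D hD
        rw [mem_filter, mem_filter, mem_SAg] at hD
        rw [mem_SAg]
        exact ⟨hD.1.1.1, hD.2⟩
    refine e1.trans ?_
    have e2 := hW (2 ^ (k + j₀)) Nat.one_le_two_pow
    have e3 : L1 (2 ^ (k + j₀)) ≤ ((k + j₀ : ℕ) : ℝ) + 1 := by
      unfold L1
      push_cast
      rw [Real.log_pow]
      have := Real.log_two_lt_d9
      have h0 : (0 : ℝ) ≤ ((k + j₀ : ℕ) : ℝ) := Nat.cast_nonneg _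
      push_cast at h0 ⊢
      nlinarith
    have e0 : 0 ≤ L1 (2 ^ (k + j₀)) := by
      have := L1_one_le (X := 2 ^ (k + j₀)) Nat.one_le_two_pow
      linarith
    have e4 : L1 (2 ^ (k + j₀)) ^ s ≤ (((k + j₀ : ℕ) : ℝ) + 1) ^ s := pow_le_pow_left₀ e0 e3 s
    calc 4 * (1 / 4 : ℝ) ^ (k + j₀) * WS G r (2 ^ (k + j₀)) ≤
        4 * (1 / 4 : ℝ) ^ (k + j₀) * (C * (((2 ^ (k + j₀) : ℕ) : ℝ) *
          (((k + j₀ : ℕ) : ℝ) + 1) ^ s)) := by
          refine mul_le_mul_of_nonneg_left (e2.trans ?_) (by positivity)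
          gcongr
      _ = 4 * C * f (k + j₀) := by
          show _ = 4 * C * ((((k + j₀ : ℕ) : ℝ) + 1) ^ s * (1 / 2 : ℝ) ^ (k + j₀))
          have e5 : (1 / 4 : ℝ) ^ (k + j₀) * (((2 ^ (k + j₀) : ℕ) : ℝ)) = (1 / 2 : ℝ) ^ (k + j₀) := by
            push_cast
            rw [← mul_pow]
            norm_num
          rw [← e5]
          ring
  refine (sum_le_sum h2).trans ?_
  rw [← mul_sum]
  have h3 : ∑ k ∈ range (X + 1), f (k + j₀) ≤ ∑' k, f (k + j₀) :=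
    ((summable_nat_add_iff j₀).2 hfs).sum_le_tsum _ fun k _ => hf0 _
  calc 4 * C * ∑ k ∈ range (X + 1), f (k + j₀) ≤ 4 * C * (δ / (4 * C)) := by
        apply mul_le_mul_of_nonneg_left _ (by positivity)
        linarith
    _ = δ := by field_simp

/-- QA-WLOW, from the upper bound -/
theorem t_WLOW (hWALL : S_WALL) : S_WLOW := by
  intro R G D c X₀ hUp hc hLo r hr
  obtain ⟨s, rfl⟩ : ∃ s, r = s + 1 := ⟨r - 1, by omega⟩
  rw [Nat.add_sub_cancel]
  clear hr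
  induction s with
  | zero =>
    refine ⟨c, X₀, hc, fun X hX => ?_⟩
    have h := hLo X hX
    unfold WS
    simpa using h
  | succ s ih =>
    obtain ⟨c', X₁, hc', h⟩ := ih
    obtain ⟨X₂, hX₂1, hX₂⟩ := PW_low G hc hLo s c' X₁ hc' h
    obtain ⟨C1, hC1, hW1⟩ := hWALL R G D hUp (s + 1) (by omega)
    obtain ⟨C2, hC2, hW2⟩ := hWALL R G D hUp (s + 2) (by omega)
    rw [Nat.add_sub_cancel] at hW1
    rw [show s + 2 - 1 = s + 1 by omega] at hW2
    set c₃ : ℝ := c / 2 * (c' / 16 ^ (s + 1)) with hc₃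
    have hc₃0 : 0 < c₃ := by positivity
    obtain ⟨j₀, hj₀⟩ := tail G (s + 1) C1 hC1 s hW1 (c₃ / (2 * C2)) (by positivity)
    set B : ℝ := WS G (s + 1) (2 ^ j₀) with hB
    have hB1 : 1 ≤ B := WS_pos G _ Nat.one_le_two_pow
    refine ⟨c₃ / (2 * B), X₂, by positivity, fun X hX => ?_⟩
    have hX1 : 1 ≤ X := hX₂1.trans hX
    have hX0' : (0 : ℝ) < X := by exact_mod_cast hX1
    have hL0 : 0 < L1 X := lt_of_lt_of_le one_pos (L1_one_le hX1)
    have h1 := (hX₂ X hX).trans (PW_le G (s + 1) X)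
    have h2 : ∑ D ∈ SAg G X, ((s + 1 : ℕ) : ℝ) ^ D.card * WS G (s + 1 + 1) (X / NN G D ^ 2) ≤
        B * WS G (s + 2) X + c₃ / 2 * (X * L1 X ^ (s + 1)) := by
      rw [← sum_filter_add_sum_filter_not (SAg G X) (fun D => 2 ^ j₀ < NN G D), add_comm]
      refine add_le_add ?_ ?_
      · rw [hB]
        unfold WS
        rw [sum_mul]
        change ∑ D ∈ (SAg G X).filter (fun D => ¬ 2 ^ j₀ < NN G D),
          ((s + 1 : ℕ) : ℝ) ^ D.card * WS G (s + 1 + 1) (X / NN G D ^ 2) ≤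
          ∑ D ∈ SAg G (2 ^ j₀), ((s + 1 : ℕ) : ℝ) ^ D.card * WS G (s + 2) X
        refine (sum_le_sum fun D _ => ?_).trans (sum_le_sum_of_subset_of_nonneg
          (s := (SAg G X).filter (fun D => ¬ 2 ^ j₀ < NN G D)) ?_ fun D _ _ => ?_)
        · exact mul_le_mul_of_nonneg_left (WS_mono G _ (Nat.div_le_self _ _)) (by positivity)
        · intro D hD
          rw [mem_filter, mem_SAg] at hD
          rw [mem_SAg]
          exact ⟨hD.1.1, by omega⟩
        · exact mul_nonneg (by positivity) (WS_nonneg G _ _)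
      · have e1 : ∀ D ∈ (SAg G X).filter (fun D => 2 ^ j₀ < NN G D),
            ((s + 1 : ℕ) : ℝ) ^ D.card * WS G (s + 1 + 1) (X / NN G D ^ 2) ≤
            C2 * (X * L1 X ^ (s + 1)) * (((s + 1 : ℕ) : ℝ) ^ D.card / (NN G D : ℝ) ^ 2) := by
          intro D hD
          rw [mem_filter, mem_SAg] at hD
          have hN := NN_pos G hD.1.1
          have hN0 : (0 : ℝ) < NN G D := by exact_mod_cast hN
          have e2 : WS G (s + 1 + 1) (X / NN G D ^ 2) ≤
              C2 * ((X / (NN G D : ℝ) ^ 2) * L1 X ^ (s + 1)) := by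
            rcases Nat.eq_zero_or_pos (X / NN G D ^ 2) with h0 | h0
            · rw [h0, WS_zero]
              positivity
            · refine (hW2 _ h0).trans ?_
              have f1 : ((X / NN G D ^ 2 : ℕ) : ℝ) ≤ X / (NN G D : ℝ) ^ 2 := by
                have := Nat.cast_div_le (α := ℝ) (m := X) (n := NN G D ^ 2)
                push_cast at this
                exact this
              have f2 : L1 (X / NN G D ^ 2) ≤ L1 X := L1_mono h0 (Nat.div_le_self _ _)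
              have f3 : 0 ≤ L1 (X / NN G D ^ 2) := by
                have := L1_one_le h0
                linarith
              gcongr
          calc ((s + 1 : ℕ) : ℝ) ^ D.card * WS G (s + 1 + 1) (X / NN G D ^ 2) ≤
              ((s + 1 : ℕ) : ℝ) ^ D.card * (C2 * ((X / (NN G D : ℝ) ^ 2) * L1 X ^ (s + 1))) :=
                mul_le_mul_of_nonneg_left e2 (by positivity)
            _ = _ := by ring
        refine (sum_le_sum e1).trans ?_
        rw [← mul_sum]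
        calc C2 * (X * L1 X ^ (s + 1)) * ∑ D ∈ (SAg G X).filter (fun D => 2 ^ j₀ < NN G D),
            ((s + 1 : ℕ) : ℝ) ^ D.card / (NN G D : ℝ) ^ 2 ≤
            C2 * (X * L1 X ^ (s + 1)) * (c₃ / (2 * C2)) :=
              mul_le_mul_of_nonneg_left (hj₀ X) (by positivity)
          _ = c₃ / 2 * (X * L1 X ^ (s + 1)) := by field_simp
    have h3 : c₃ / 2 * (X * L1 X ^ (s + 1)) ≤ B * WS G (s + 2) X := by linarith
    rw [div_mul_eq_mul_div, div_le_iff₀ (by positivity)]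
    have e9 : s + 1 + 1 = s + 2 := rfl
    rw [e9]
    linarith

end Pool.Agent.N124.QA
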